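import Pool.Agent.W394.BQN.Stm

/-!
# Bass-Quillen for iterated affine modifications: part V3
-/

set_option autoImplicit false

open Polynomial

noncomputable section

namespace Pool.Agent.W195.BQN

open BQ Pool.Agent.W394.BQN

/-! ### transformations of rows -/

/-- `(a', b') = (a, b) * M` for some `M` in `GG R` -/
def T {R : Type} [CommRing R] (a b a' b' : R) : Prop :=
  ∃ M ∈ GG R, a' = a * M 0 0 + b * M 1 0 ∧ b' = a * M 0 1 + b * M 1 1

theorem T.trans {R : Type} [CommRing R] {a b a' b' a'' b'' : R} (h : T a b a' b')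
    (h' : T a' b' a'' b'') : T a b a'' b'' := by
  obtain ⟨M, hM, h1, h2⟩ := h
  obtain ⟨M', hM', h3, h4⟩ := h'
  refine ⟨M * M', mul_mem hM hM', ?_, ?_⟩
  · rw [h3, h1, h2, Matrix.mul_apply, Matrix.mul_apply, Fin.sum_univ_two, Fin.sum_univ_two]
    ring
  · rw [h4, h1, h2, Matrix.mul_apply, Matrix.mul_apply, Fin.sum_univ_two, Fin.sum_univ_two]
    ring

theorem T.upper {R : Type} [CommRing R] (a b c : R) : T a b a (b + a * c) := by
  refine ⟨!![1, c; 0, 1], Submonoid.subset_closure (Or.inl ⟨c, rfl⟩), ?_, ?_⟩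
  · simp
  · simp [add_comm]

theorem T.diag {R : Type} [CommRing R] (a b u v : R) (hu : IsUnit u) (hv : IsUnit v) :
    T a b (a * u) (b * v) := by
  refine ⟨!![u, 0; 0, v], Submonoid.subset_closure (Or.inr (Or.inr ⟨u, v, hu, hv, rfl⟩)), ?_, ?_⟩
  · simp
  · simp

theorem GG_det {R : Type} [CommRing R] {M : Matrix (Fin 2) (Fin 2) R} (hM : M ∈ GG R) :
    IsUnit M.det := by
  unfold GG at hM
  induction hM using Submonoid.closure_induction with
  | mem x hx =>
    rcases hx with ⟨c, rfl⟩ | ⟨c, rfl⟩ | ⟨u, v, hu, hv, rfl⟩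
    · simp [Matrix.det_fin_two_of]
    · simp [Matrix.det_fin_two_of]
    · simp only [Matrix.det_fin_two_of, mul_zero, sub_zero]
      exact hu.mul hv
  | one => simp
  | mul x y _ _ h1 h2 =>
    rw [Matrix.det_mul]
    exact h1.mul h2

theorem T.coprime {R : Type} [CommRing R] {a b a' b' : R} (h : T a b a' b')
    (hc : IsCoprime a b) : IsCoprime a' b' := by
  obtain ⟨M, hM, h1, h2⟩ := h
  obtain ⟨e, he⟩ := (GG_det hM).exists_left_inv
  rw [Matrix.det_fin_two] at he
  obtain ⟨s, t, hst⟩ := hc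
  refine ⟨e * (s * M 1 1 - t * M 0 1), e * (t * M 0 0 - s * M 1 0), ?_⟩
  rw [h1, h2]
  linear_combination (s * a + t * b) * he + hst

/-! ### the key trick -/

theorem isUnit_S2 {D : Type} [CommRing D] [IsDomain D] {f : D[X]} (hf : f ∈ S2 D) :
    IsUnit (algebraMap D[X] (VV D) f) :=
  IsLocalization.map_units (VV D) (⟨f, hf⟩ : S2 D)

theorem X_mem (D : Type) [CommRing D] [IsDomain D] : (X : D[X]) ∈ S2 D := by
  refine E.mem_S2.2 ⟨by simp, ?_⟩
  rw [trailingCoeff, natTrailingDegree_X]
  simp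

theorem tcc {D : Type} [CommRing D] {q : D[X]} (h : q.coeff 0 ≠ 0) :
    q.trailingCoeff = q.coeff 0 := by
  rw [trailingCoeff]
  congr 1
  exact Nat.le_zero.1 (natTrailingDegree_le_of_ne_zero h)

theorem one_add_mem (D : Type) [CommRing D] [IsDomain D] (N : ℕ) (hN : 0 < N) :
    (1 + X ^ N : D[X]) ∈ S2 D := by
  have h0 : (1 + X ^ N : D[X]).coeff 0 = 1 := by
    rw [coeff_add, coeff_one_zero, coeff_X_pow, if_neg (by omega), add_zero]
  refine E.mem_S2.2 ⟨?_, ?_⟩
  · have : (1 + X ^ N : D[X]) = X ^ N + C 1 := by rw [C_1, add_comm]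
    rw [this, leadingCoeff_X_pow_add_C hN]
  · rw [tcc (by rw [h0]; exact one_ne_zero), h0]

theorem lift (D : Type) [CommRing D] [IsDomain D] (N : ℕ) (hN : 0 < N)
    (M : Matrix (Fin 2) (Fin 2) D) (hM : M ∈ E2 D) :
    ∃ (Q : Matrix (Fin 2) (Fin 2) D[X]) (K : ℕ), Q.map (algebraMap D[X] (VV D)) ∈ GG (VV D) ∧
      (∀ i j, (Q i j).coeff 0 = M i j) ∧
      ∀ i j n, N * K < n + N → (Q i j).coeff n = if i = j ∧ n = N * K then 1 else 0 := by
  unfold E2 at hM
  induction hM using Submonoid.closure_induction_right with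
  | one =>
    refine ⟨1, 0, ?_, ?_, ?_⟩
    · rw [Matrix.map_one _ (map_zero _) (map_one _)]
      exact one_mem _
    · intro i j
      by_cases hij : i = j
      · subst hij; simp
      · simp [Matrix.one_apply_ne hij]
    · intro i j n hn
      by_cases hij : i = j
      · subst hij; simp [coeff_one]
      · simp [Matrix.one_apply_ne hij, hij]
  | mul_right x hx y hy ih =>
    obtain ⟨Q, K, hQ, h0, hK⟩ := ih
    have hX : (X : D[X]) ^ N ∈ S2 D := pow_mem (X_mem D) N
    refine ⟨Q * (y.map C + (X ^ N : D[X]) • 1), K + 1, ?_, ?_, ?_⟩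
    · rw [Matrix.map_mul]
      refine mul_mem hQ ?_
      have hu := isUnit_S2 (one_add_mem D N hN)
      obtain ⟨e, he⟩ := hu.exists_right_inv
      have hd : (!![algebraMap D[X] (VV D) (1 + X ^ N), 0; 0, algebraMap D[X] (VV D) (1 + X ^ N)] :
          Matrix (Fin 2) (Fin 2) (VV D)) ∈ GG (VV D) :=
        Submonoid.subset_closure (Or.inr (Or.inr ⟨_, _, hu, hu, rfl⟩))
      rcases hy with ⟨c, rfl⟩ | ⟨c, rfl⟩
      · have h1 : (!![1, algebraMap D[X] (VV D) (C c) * e; 0, 1] :
          Matrix (Fin 2) (Fin 2) (VV D)) ∈ GG (VV D) :=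
          Submonoid.subset_closure (Or.inl ⟨_, rfl⟩)
        have h2 := mul_mem hd h1
        have h3 : (!![algebraMap D[X] (VV D) (1 + X ^ N), 0;
            0, algebraMap D[X] (VV D) (1 + X ^ N)] : Matrix (Fin 2) (Fin 2) (VV D)) *
            !![1, algebraMap D[X] (VV D) (C c) * e; 0, 1] =
            (((!![1, c; 0, 1] : Matrix (Fin 2) (Fin 2) D).map C + (X ^ N : D[X]) • 1).map
              (algebraMap D[X] (VV D))) := by
          ext i j
          fin_cases i <;> fin_cases j
          · simp [Matrix.mul_apply, Fin.sum_univ_two]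
          · simp [Matrix.mul_apply, Fin.sum_univ_two]
            rw [map_add, map_one, map_pow] at he
            linear_combination (algebraMap D[X] (VV D) (C c)) * he
          · simp [Matrix.mul_apply, Fin.sum_univ_two]
          · simp [Matrix.mul_apply, Fin.sum_univ_two]
        rw [← h3]
        exact h2
      · have h1 : (!![1, 0; algebraMap D[X] (VV D) (C c) * e, 1] :
          Matrix (Fin 2) (Fin 2) (VV D)) ∈ GG (VV D) :=
          Submonoid.subset_closure (Or.inr (Or.inl ⟨_, rfl⟩))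
        have h2 := mul_mem hd h1
        have h3 : (!![algebraMap D[X] (VV D) (1 + X ^ N), 0;
            0, algebraMap D[X] (VV D) (1 + X ^ N)] : Matrix (Fin 2) (Fin 2) (VV D)) *
            !![1, 0; algebraMap D[X] (VV D) (C c) * e, 1] =
            (((!![1, 0; c, 1] : Matrix (Fin 2) (Fin 2) D).map C + (X ^ N : D[X]) • 1).map
              (algebraMap D[X] (VV D))) := by
          ext i j
          fin_cases i <;> fin_cases j
          · simp [Matrix.mul_apply, Fin.sum_univ_two]
          · simp [Matrix.mul_apply, Fin.sum_univ_two]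
          · simp [Matrix.mul_apply, Fin.sum_univ_two]
            rw [map_add, map_one, map_pow] at he
            linear_combination (algebraMap D[X] (VV D) (C c)) * he
          · simp [Matrix.mul_apply, Fin.sum_univ_two]
        rw [← h3]
        exact h2
    · intro i j
      have e1 : (Q * (y.map C + (X ^ N : D[X]) • 1)) i j =
          (Q i 0 * C (y 0 j) + Q i 1 * C (y 1 j)) + Q i j * X ^ N := by
        rw [mul_add, Matrix.add_apply, Matrix.mul_apply, Fin.sum_univ_two, Matrix.mul_smul,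
          mul_one, Matrix.smul_apply, smul_eq_mul, mul_comm (X ^ N)]
        rfl
      rw [e1, coeff_add, coeff_add, coeff_mul_C, coeff_mul_C, h0, h0, Matrix.mul_apply,
        Fin.sum_univ_two, coeff_mul_X_pow', if_neg (by omega), add_zero]
    · intro i j n hn
      have e1 : (Q * (y.map C + (X ^ N : D[X]) • 1)) i j =
          (Q i 0 * C (y 0 j) + Q i 1 * C (y 1 j)) + Q i j * X ^ N := by
        rw [mul_add, Matrix.add_apply, Matrix.mul_apply, Fin.sum_univ_two, Matrix.mul_smul,
          mul_one, Matrix.smul_apply, smul_eq_mul, mul_comm (X ^ N)]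
        rfl
      have hn' : N * K < n := by
        rw [mul_add, mul_one] at hn
        omega
      have z : ∀ l, (Q i l).coeff n = 0 := by
        intro l
        rw [hK i l n (by omega), if_neg]
        rintro ⟨-, h⟩
        omega
      rw [e1, coeff_add, coeff_add, coeff_mul_C, coeff_mul_C, z, z, zero_mul, zero_mul, add_zero,
        zero_add, coeff_mul_X_pow']
      by_cases hNn : N ≤ n
      · rw [if_pos hNn, hK i j (n - N) (by omega)]
        congr 1
        rw [mul_add, mul_one]
        apply propext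
        constructor
        · rintro ⟨h1, h2⟩
          exact ⟨h1, by omega⟩
        · rintro ⟨h1, h2⟩
          exact ⟨h1, by omega⟩
      · rw [if_neg hNn, if_neg]
        rintro ⟨-, h⟩
        rw [mul_add, mul_one] at h
        omega

/-! ### killing from below -/

theorem kill {D : Type} [CommRing D] (p r : D[X]) (k : ℕ) : ∃ c : D[X],
    (∃ m, X ^ m ∣ r + p * c ∧ ¬ p.coeff 0 ∣ (r + p * c).coeff m) ∨ X ^ k ∣ r + p * c := by
  induction k with
  | zero => exact ⟨0, Or.inr (by simp)⟩
  | succ k ih =>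
    obtain ⟨c, h | h⟩ := ih
    · exact ⟨c, Or.inl h⟩
    · by_cases hg : p.coeff 0 ∣ (r + p * c).coeff k
      · obtain ⟨e, he⟩ := hg
        refine ⟨c - C e * X ^ k, Or.inr ?_⟩
        rw [X_pow_dvd_iff] at h ⊢
        intro i hi
        have e1 : r + p * (c - C e * X ^ k) = (r + p * c) - p * C e * X ^ k := by ring
        rw [e1, coeff_sub, coeff_mul_X_pow']
        rcases Nat.lt_succ_iff_lt_or_eq.1 hi with h1 | h1
        · rw [h i h1, if_neg (by omega), sub_zero]
        · subst h1
          rw [if_pos le_rfl, Nat.sub_self, coeff_mul_C, he, sub_self]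
      · exact ⟨c, Or.inl ⟨k, h, hg⟩⟩

/-- clearing denominators -/
theorem clear {D : Type} [CommRing D] [IsDomain D] {p r : D[X]}
    (h : IsCoprime (algebraMap D[X] (VV D) p) (algebraMap D[X] (VV D) r)) :
    ∃ x y : D[X], p * x + r * y ∈ S2 D := by
  obtain ⟨s, t, hst⟩ := h
  obtain ⟨⟨x, f⟩, hx⟩ := IsLocalization.surj (S2 D) s
  obtain ⟨⟨y, g⟩, hy⟩ := IsLocalization.surj (S2 D) t
  simp only at hx hy
  refine ⟨x * g, y * f, ?_⟩
  have e : p * (x * g) + r * (y * f) = (f : D[X]) * g := by
    apply IsLocalization.injective (VV D) (E.S2_le D)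
    rw [map_add, map_mul, map_mul, map_mul, map_mul, map_mul, ← hx, ← hy]
    linear_combination (algebraMap D[X] (VV D) f) * (algebraMap D[X] (VV D) g) * hst
  rw [e]
  exact mul_mem f.2 g.2

theorem lc_key {D : Type} [CommRing D] [IsDomain D] (p b : D[X]) (hp : p ≠ 0) (N K : ℕ)
    (hN : p.natDegree + b.natDegree < N) (u v : D[X])
    (hu : ∀ n, N * K < n + N → u.coeff n = if n = N * K then 1 else 0)
    (hv : ∀ n, N * K < n + N → v.coeff n = 0) :
    (p * u + b * v).leadingCoeff = p.leadingCoeff := by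
  have e : p * u + b * v = p * X ^ (N * K) + (p * (u - X ^ (N * K)) + b * v) := by ring
  have hu' : ∀ n, N * K < n + N → (u - X ^ (N * K)).coeff n = 0 := by
    intro n hn
    rw [coeff_sub, hu n hn, coeff_X_pow, sub_self]
  have key : ∀ (q w : D[X]), q.natDegree < N → (∀ n, N * K < n + N → w.coeff n = 0) →
      ∀ n, N * K ≤ n → (q * w).coeff n = 0 := by
    intro q w hq hw n hn
    rw [coeff_mul]
    refine Finset.sum_eq_zero fun x hx => ?_
    rw [Finset.HasAntidiagonal.mem_antidiagonal] at hx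
    rcases lt_or_ge q.natDegree x.1 with h | h
    · rw [coeff_eq_zero_of_natDegree_lt h, zero_mul]
    · rw [hw x.2 (by omega), mul_zero]
  have hdeg : (p * (u - X ^ (N * K)) + b * v).degree < (p * X ^ (N * K)).degree := by
    have h1 : (p * (u - X ^ (N * K)) + b * v).degree < ((N * K : ℕ) : WithBot ℕ) := by
      rw [degree_lt_iff_coeff_zero]
      intro n hn
      rw [coeff_add, key p _ (by omega) hu' n hn, key b _ (by omega) hv n hn, add_zero]
    refine lt_of_lt_of_le h1 ?_
    rw [degree_mul, degree_X_pow]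
    have h2 : 0 ≤ p.degree := zero_le_degree_iff.2 hp
    calc ((N * K : ℕ) : WithBot ℕ) = 0 + ((N * K : ℕ) : WithBot ℕ) := (zero_add _).symm
      _ ≤ p.degree + ((N * K : ℕ) : WithBot ℕ) := by gcongr
  rw [e, leadingCoeff_add_of_degree_lt' hdeg, leadingCoeff_mul, leadingCoeff_X_pow, mul_one]

theorem gcd2 {D : Type} [CommRing D] [IsDomain D] [IsPrincipalIdealRing D] (g h : D)
    (hg : g ≠ 0) (hgh : ¬ g ∣ h) :
    ∃ d g1 h1 : D, g = d * g1 ∧ h = d * h1 ∧ IsCoprime g1 h1 ∧ d ≠ 0 ∧ ¬ IsUnit g1 := by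
  obtain ⟨d, hd⟩ := (IsPrincipalIdealRing.principal (Ideal.span {g, h} : Ideal D)).principal
  have hd' : Ideal.span {g, h} = Ideal.span {d} := hd
  have h1 : g ∈ Ideal.span {d} := by rw [← hd']; exact Ideal.subset_span (by simp)
  have h2 : h ∈ Ideal.span {d} := by rw [← hd']; exact Ideal.subset_span (by simp)
  obtain ⟨g1, hg1⟩ := Ideal.mem_span_singleton.1 h1
  obtain ⟨h1', hh1⟩ := Ideal.mem_span_singleton.1 h2
  have h3 : d ∈ Ideal.span {g, h} := by rw [hd']; exact Ideal.mem_span_singleton_self d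
  obtain ⟨a, b, hab⟩ := Ideal.mem_span_pair.1 h3
  have hd0 : d ≠ 0 := by
    rintro rfl
    rw [zero_mul] at hg1
    exact hg hg1
  refine ⟨d, g1, h1', hg1, hh1, ⟨a, b, ?_⟩, hd0, ?_⟩
  · apply mul_left_cancel₀ hd0
    rw [hg1, hh1] at hab
    linear_combination hab
  · intro hu
    apply hgh
    have : g ∣ d := by
      obtain ⟨e, he⟩ := hu.exists_right_inv
      exact ⟨e, by rw [hg1, mul_assoc, he, mul_one]⟩
    exact this.trans ⟨h1', hh1⟩

theorem claim (D : Type) [CommRing D] [IsDomain D] [IsPrincipalIdealRing D] (hE : E2T D) :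
    ∀ g : D, g ≠ 0 → ∀ p r : D[X], p.coeff 0 = g → IsUnit p.leadingCoeff →
      IsCoprime (algebraMap D[X] (VV D) p) (algebraMap D[X] (VV D) r) →
      ∃ p' r' : D[X], T (algebraMap D[X] (VV D) p) (algebraMap D[X] (VV D) r)
        (algebraMap D[X] (VV D) p') (algebraMap D[X] (VV D) r') ∧ IsUnit p'.leadingCoeff ∧
        IsUnit (p'.coeff 0) := by
  intro g
  induction g using (wellFounded_dvdNotUnit (α := D)).induction with
  | _ g ih =>
  intro hg p r hp hl hc
  have hp0 : p ≠ 0 := by
    rintro rfl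
    rw [leadingCoeff_zero] at hl
    exact not_isUnit_zero hl
  have hrefl : T (algebraMap D[X] (VV D) p) (algebraMap D[X] (VV D) r)
      (algebraMap D[X] (VV D) p) (algebraMap D[X] (VV D) r) := by
    have := T.upper (algebraMap D[X] (VV D) p) (algebraMap D[X] (VV D) r) 0
    rwa [mul_zero, add_zero] at this
  by_cases hu : IsUnit g
  · exact ⟨p, r, hrefl, hl, by rw [hp]; exact hu⟩
  obtain ⟨x, y, hf⟩ := clear hc
  obtain ⟨a, f₀, hf1, -, -, hf0⟩ := S2.factor D _ hf
  obtain ⟨c, h | h⟩ := kill p r (a + 1)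
  · obtain ⟨m, ⟨b, hb⟩, hng⟩ := h
    have hbm : (r + p * c).coeff m = b.coeff 0 := by
      have := coeff_X_pow_mul b m 0
      rw [zero_add] at this
      rw [hb, this]
    rw [hp, hbm] at hng
    obtain ⟨d, g1, h1, e1, e2, hcop, hd0, hg1⟩ := gcd2 g (b.coeff 0) hg hng
    obtain ⟨M0, hM0, m1, m2⟩ := hE g1 h1 hcop
    obtain ⟨Q, K, hQ, hQ0, hQK⟩ := lift D (p.natDegree + b.natDegree + 1) (by omega) M0 hM0
    have hT : T (algebraMap D[X] (VV D) p) (algebraMap D[X] (VV D) r)
        (algebraMap D[X] (VV D) (p * Q 0 0 + b * Q 1 0))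
        (algebraMap D[X] (VV D) (p * Q 0 1 + b * Q 1 1)) := by
      have t1 := T.upper (algebraMap D[X] (VV D) p) (algebraMap D[X] (VV D) r)
        (algebraMap D[X] (VV D) c)
      have e3 : algebraMap D[X] (VV D) r + algebraMap D[X] (VV D) p * algebraMap D[X] (VV D) c =
          algebraMap D[X] (VV D) (X ^ m * b) := by
        rw [← hb, map_add, map_mul]
      rw [e3] at t1
      have hX := isUnit_S2 (pow_mem (X_mem D) m)
      obtain ⟨e, he⟩ := hX.exists_right_inv
      have t2 := T.diag (algebraMap D[X] (VV D) p) (algebraMap D[X] (VV D) (X ^ m * b)) 1 e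
        isUnit_one (IsUnit.of_mul_eq_one _ (by rw [mul_comm]; exact he))
      have e4 : algebraMap D[X] (VV D) (X ^ m * b) * e = algebraMap D[X] (VV D) b := by
        rw [map_mul]
        linear_combination (algebraMap D[X] (VV D) b) * he
      rw [mul_one, e4] at t2
      have t3 : T (algebraMap D[X] (VV D) p) (algebraMap D[X] (VV D) b)
          (algebraMap D[X] (VV D) (p * Q 0 0 + b * Q 1 0))
          (algebraMap D[X] (VV D) (p * Q 0 1 + b * Q 1 1)) := by
        refine ⟨_, hQ, ?_, ?_⟩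
        · rw [map_add, map_mul, map_mul]; rfl
        · rw [map_add, map_mul, map_mul]; rfl
      exact (t1.trans t2).trans t3
    obtain ⟨p', r', hT', hl', hc'⟩ := ih d ⟨hd0, g1, hg1, e1⟩ hd0
      (p * Q 0 0 + b * Q 1 0) (p * Q 0 1 + b * Q 1 1) (by
        rw [coeff_add, mul_coeff_zero, mul_coeff_zero, hQ0, hQ0, hp, e1, e2]
        linear_combination d * m1) (by
        rw [lc_key p b hp0 (p.natDegree + b.natDegree + 1) K (by omega) (Q 0 0) (Q 1 0)
          (fun n hn => by simpa using hQK 0 0 n hn) (fun n hn => by simpa using hQK 1 0 n hn)]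
        exact hl) (hT.coprime hc)
    exact ⟨p', r', hT.trans hT', hl', hc'⟩
  · exfalso
    obtain ⟨b, hb⟩ := h
    apply hu
    have e : p * (x - c * y) = X ^ a * (f₀ - X * b * y) := by
      rw [pow_succ] at hb
      linear_combination hf1 - y * hb
    have h0 : (f₀ - X * b * y).coeff 0 = 1 := by
      rw [coeff_sub, coeff_zero_eq_eval_zero f₀, hf0, mul_assoc, mul_coeff_zero, coeff_X_zero,
        zero_mul, sub_zero]
    have h1 : (X ^ a * (f₀ - X * b * y)).trailingCoeff = 1 := by
      rw [trailingCoeff_mul, tcc (q := f₀ - X * b * y) (by rw [h0]; exact one_ne_zero), h0, mul_one]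
      exact (pow_mem (X_mem D) a).2
    rw [← e, trailingCoeff_mul, tcc (q := p) (by rw [hp]; exact hg), hp] at h1
    exact IsUnit.of_mul_eq_one _ h1

theorem t_V3 : S_V3 := by
  intro D _ _ _ hE p r x y hf hl
  have hp0 : p ≠ 0 := by
    rintro rfl
    rw [leadingCoeff_zero] at hl
    exact not_isUnit_zero hl
  have hX : X ^ p.natTrailingDegree ∣ p := by
    rw [X_pow_dvd_iff]
    intro i hi
    exact coeff_eq_zero_of_lt_natTrailingDegree hi
  obtain ⟨q, hq⟩ := hX
  set o := p.natTrailingDegree with ho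
  have hq0 : q.coeff 0 ≠ 0 := by
    have h1 : p.coeff o = q.coeff 0 := by
      have := coeff_X_pow_mul q o 0
      rw [zero_add] at this
      rw [← this, ← hq]
    rw [← h1]
    exact mt trailingCoeff_eq_zero.1 hp0
  have hlq : IsUnit q.leadingCoeff := by
    have h1 : p.leadingCoeff = q.leadingCoeff := by
      conv_lhs => rw [hq]
      rw [leadingCoeff_mul, leadingCoeff_X_pow, one_mul]
    rw [← h1]
    exact hl
  have hT : T (algebraMap D[X] (VV D) p) (algebraMap D[X] (VV D) r)
      (algebraMap D[X] (VV D) q) (algebraMap D[X] (VV D) r) := by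
    have hXu := isUnit_S2 (pow_mem (X_mem D) o)
    obtain ⟨e, he⟩ := hXu.exists_right_inv
    have t2 := T.diag (algebraMap D[X] (VV D) p) (algebraMap D[X] (VV D) r) e 1
      (IsUnit.of_mul_eq_one _ (by rw [mul_comm]; exact he)) isUnit_one
    have e4 : algebraMap D[X] (VV D) p * e = algebraMap D[X] (VV D) q := by
      conv_lhs => rw [hq]
      rw [map_mul]
      linear_combination (algebraMap D[X] (VV D) q) * he
    rw [mul_one, e4] at t2
    exact t2
  have hcop : IsCoprime (algebraMap D[X] (VV D) p) (algebraMap D[X] (VV D) r) := by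
    obtain ⟨e, he⟩ := (isUnit_S2 hf).exists_right_inv
    refine ⟨e * algebraMap D[X] (VV D) x, e * algebraMap D[X] (VV D) y, ?_⟩
    rw [map_add, map_mul, map_mul] at he
    linear_combination he
  obtain ⟨p', r', hT', h1, h2⟩ := claim D hE (q.coeff 0) hq0 q r rfl hlq (hT.coprime hcop)
  obtain ⟨M, hM, h3, h4⟩ := hT.trans hT'
  refine ⟨M, hM, p', r', h1, ?_, h3, h4⟩
  rw [tcc h2.ne_zero]
  exact h2

end Pool.Agent.W195.BQN
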